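import Mathlib
import Pool.Agent.H295R3.D6.Stmts

set_option autoImplicit false

open Finset Filter

namespace Pool.Agent.H632R3.D6

open Pool.Agent.H295R3.D6

theorem maxprime (j p : ℕ) (hp : p.Prime) (hj : 1 ≤ j) (hjp : j < p) :
    (j * p).primeFactors.sup id = p := by
  apply le_antisymm
  · apply Finset.sup_le
    intro q hq
    have hq' := Nat.prime_of_mem_primeFactors hq
    have hd := Nat.dvd_of_mem_primeFactors hq
    rcases (Nat.Prime.dvd_mul hq').1 hd with h | h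
    · exact (Nat.le_of_dvd (by omega) h).trans hjp.le
    · exact Nat.le_of_dvd hp.pos h
  · apply Finset.le_sup (f := id) (b := p)
    rw [Nat.mem_primeFactors]
    exact ⟨hp, Dvd.intro_left j rfl, Nat.mul_ne_zero (by omega) hp.ne_zero⟩

theorem taskLIFT : TaskLIFT := by
  intro K N E hK hE
  have hfin : E.Finite := (Set.finite_Iic N).subset (fun n hn => hE n hn)
  have hsub : Lift K N E ⊆ (fun z : ℕ × ℕ => z.2 * (z.1.primeFactors.sup id)) ''
      (E ×ˢ (Set.Icc 1 ⌊K⌋₊)) := by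
    rintro m ⟨_, _, k, p, j, hp, hKp, hj1, hjk, hkK, rfl, hjp⟩
    refine ⟨(j * p, k), ⟨hjp, ⟨by simp; omega, Nat.le_floor hkK⟩⟩, ?_⟩
    have : j < p := by
      have : (j : ℝ) < p := by
        have : (j : ℝ) < k := by exact_mod_cast hjk
        linarith
      exact_mod_cast this
    simp only
    rw [maxprime j p hp hj1 this]
  have hfin2 : (E ×ˢ (Set.Icc 1 ⌊K⌋₊)).Finite := hfin.prod (Set.finite_Icc _ _)
  have h1 : (Lift K N E).ncard ≤ (E ×ˢ (Set.Icc 1 ⌊K⌋₊)).ncard :=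
    (Set.ncard_le_ncard hsub (hfin2.image _)).trans (Set.ncard_image_le hfin2)
  have h2 : (E ×ˢ (Set.Icc 1 ⌊K⌋₊)).ncard = E.ncard * ⌊K⌋₊ := by
    rw [Set.ncard_prod]
    congr 1
    rw [← Finset.coe_Icc, Set.ncard_coe_finset]
    simp
  rw [h2] at h1
  have h3 : ((Lift K N E).ncard : ℝ) ≤ E.ncard * ⌊K⌋₊ := by exact_mod_cast h1
  have h4 : ((⌊K⌋₊ : ℕ) : ℝ) ≤ K := Nat.floor_le (by linarith)
  have h5 : (0 : ℝ) ≤ E.ncard := Nat.cast_nonneg _
  nlinarith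

theorem card_near (n w : ℕ) : (Icc (n - w) (n + w)).card ≤ 2 * w + 1 := by
  rw [Nat.card_Icc]; omega

theorem taskN4 : TaskN4 := by
  intro η hη hη1
  have ht : Tendsto (fun N : ℕ => (N : ℝ) ^ η) atTop atTop :=
    (tendsto_rpow_atTop hη).comp tendsto_natCast_atTop_atTop
  filter_upwards [ht.eventually_ge_atTop 36, eventually_ge_atTop 1] with N hN hN1
  have hNr : (1 : ℝ) ≤ N := by exact_mod_cast hN1
  have hN0 : (0 : ℝ) < N := by linarith
  set W : ℝ := (N : ℝ) ^ (3 * η) with hW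
  set D : ℝ := (N : ℝ) ^ (6 * η) with hD
  have hW1 : 1 ≤ W := Real.one_le_rpow hNr (by positivity)
  have hD1 : 1 ≤ D := Real.one_le_rpow hNr (by positivity)
  have hWN : W ≤ N := by
    calc W ≤ (N : ℝ) ^ (1 : ℝ) := Real.rpow_le_rpow_of_exponent_le hNr (by linarith)
      _ = N := Real.rpow_one _
  have hDc : 1 ≤ ⌈D⌉₊ := Nat.one_le_ceil_iff.2 (by linarith)
  let T : Finset ℕ := (Ioo (⌈D⌉₊ - 1) (2 * N + 1)).biUnion (fun d =>
    (Icc 1 (2 * N / d ^ 2)).biUnion (fun t => Icc (d ^ 2 * t - ⌊W⌋₊) (d ^ 2 * t + ⌊W⌋₊)))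
  have hsub : E4 η N ⊆ (T : Set ℕ) := by
    rintro M ⟨hM1, hMN, n, d, hn1, hMn, hnM, ⟨t, ht⟩, hdD⟩
    have hdD' : D ≤ d := hdD
    have hMn' : (M : ℝ) < n + W := hMn
    have hnM' : (n : ℝ) < M + W := hnM
    have hn2 : n ≤ 2 * N := by
      have : (n : ℝ) < 2 * N := by
        have : (M : ℝ) ≤ N := by exact_mod_cast hMN
        linarith
      have : (n : ℝ) < ((2 * N : ℕ) : ℝ) := by push_cast; exact this
      exact (by exact_mod_cast this : n < 2 * N).le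
    have hd1 : 1 ≤ d := by
      have : (1 : ℝ) ≤ d := by linarith
      exact_mod_cast this
    have ht1 : 1 ≤ t := by
      rcases Nat.eq_zero_or_pos t with h | h
      · subst h; simp at ht; omega
      · exact h
    have hdn : d ^ 2 * t ≤ 2 * N := by rw [← ht]; exact hn2
    have hd2 : d ≤ 2 * N := by nlinarith
    simp only [T, Finset.coe_biUnion, Set.mem_iUnion, Finset.coe_Icc, Finset.coe_Ioo, Set.mem_Ioo,
      Set.mem_Icc]
    refine ⟨d, ⟨?_, by omega⟩, t, ⟨ht1, ?_⟩, ?_, ?_⟩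
    · have : ⌈D⌉₊ ≤ d := Nat.ceil_le.2 hdD'
      omega
    · rw [Nat.le_div_iff_mul_le (by positivity)]
      linarith
    · rw [← ht]
      have h1 : ((n - M : ℕ) : ℝ) ≤ W := by
        rcases le_total M n with h | h
        · rw [Nat.cast_sub h]; linarith
        · rw [Nat.sub_eq_zero_of_le h]; simp; linarith
      have := Nat.le_floor h1
      omega
    · rw [← ht]
      have h1 : ((M - n : ℕ) : ℝ) ≤ W := by
        rcases le_total n M with h | h
        · rw [Nat.cast_sub h]; linarith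
        · rw [Nat.sub_eq_zero_of_le h]; simp; linarith
      have := Nat.le_floor h1
      omega
  have h1 : (E4 η N).ncard ≤ T.card := by
    rw [← Set.ncard_coe_finset]
    exact Set.ncard_le_ncard hsub (Finset.finite_toSet T)
  have h2 : T.card ≤ ∑ d ∈ Ioo (⌈D⌉₊ - 1) (2 * N + 1), (2 * N / d ^ 2) * (2 * ⌊W⌋₊ + 1) := by
    refine Finset.card_biUnion_le.trans (Finset.sum_le_sum (fun d _ => ?_))
    refine Finset.card_biUnion_le.trans ?_
    refine (Finset.sum_le_sum (fun t _ => card_near _ _)).trans ?_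
    simp
  have h3 : ((E4 η N).ncard : ℝ) ≤ ∑ d ∈ Ioo (⌈D⌉₊ - 1) (2 * N + 1), (6 * N * W) * ((d : ℝ) ^ 2)⁻¹ := by
    have : ((E4 η N).ncard : ℝ) ≤ ((∑ d ∈ Ioo (⌈D⌉₊ - 1) (2 * N + 1),
      (2 * N / d ^ 2) * (2 * ⌊W⌋₊ + 1) : ℕ) : ℝ) := by exact_mod_cast h1.trans h2
    refine this.trans ?_
    push_cast
    refine Finset.sum_le_sum (fun d _ => ?_)
    have ha : (((2 * N / d ^ 2 : ℕ)) : ℝ) ≤ 2 * N * ((d : ℝ) ^ 2)⁻¹ := by
      have := @Nat.cast_div_le ℝ _ _ _ (2 * N) (d ^ 2)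
      push_cast at this
      rw [← div_eq_mul_inv]
      exact this
    have hb : (2 * (⌊W⌋₊ : ℝ) + 1) ≤ 3 * W := by
      have := Nat.floor_le (by linarith : 0 ≤ W)
      linarith
    have hc : (0 : ℝ) ≤ ((2 * N / d ^ 2 : ℕ) : ℝ) := Nat.cast_nonneg _
    calc ((2 * N / d ^ 2 : ℕ) : ℝ) * (2 * (⌊W⌋₊ : ℝ) + 1)
        ≤ (2 * N * ((d : ℝ) ^ 2)⁻¹) * (3 * W) := mul_le_mul ha hb (by positivity) (hc.trans ha)
      _ = _ := by ring
  have h4 : ∑ d ∈ Ioo (⌈D⌉₊ - 1) (2 * N + 1), (6 * N * W) * ((d : ℝ) ^ 2)⁻¹ ≤ 12 * N * W / D := by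
    rw [← Finset.mul_sum]
    have := sum_Ioo_inv_sq_le (α := ℝ) (⌈D⌉₊ - 1) (2 * N + 1)
    have hcast : (((⌈D⌉₊ - 1 : ℕ) : ℝ) + 1) = ⌈D⌉₊ := by
      rw [Nat.cast_sub hDc]; simp
    rw [hcast] at this
    have hD2 : (2 : ℝ) / ⌈D⌉₊ ≤ 2 / D := by
      apply div_le_div_of_nonneg_left (by norm_num) (by linarith) (Nat.le_ceil D)
    calc (6 * N * W) * ∑ d ∈ Ioo (⌈D⌉₊ - 1) (2 * N + 1), ((d : ℝ) ^ 2)⁻¹ ≤ (6 * N * W) * (2 / D) :=
          mul_le_mul_of_nonneg_left (this.trans hD2) (by positivity)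
      _ = _ := by ring
  have h5 : 12 * N * W / D ≤ (N : ℝ) ^ (1 - 2 * η) := by
    have e1 : 12 * N * W / D = 12 * (N : ℝ) ^ (1 - 3 * η) := by
      have : (N : ℝ) ^ (1 - 3 * η) = N * W / D := by
        rw [hW, hD, eq_div_iff (by positivity), ← Real.rpow_add hN0]
        nth_rewrite 2 [← Real.rpow_one (N : ℝ)]
        rw [← Real.rpow_add hN0]
        congr 1; ring
      rw [this]; ring
    have e2 : (N : ℝ) ^ (1 - 2 * η) = (N : ℝ) ^ η * (N : ℝ) ^ (1 - 3 * η) := by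
      rw [← Real.rpow_add hN0]; congr 1; ring
    rw [e1, e2]
    have : (0 : ℝ) < (N : ℝ) ^ (1 - 3 * η) := Real.rpow_pos_of_pos hN0 _
    nlinarith
  linarith

theorem taskN6 : TaskN6 := by
  intro A hA
  have ht : Tendsto (fun N : ℕ => (N : ℝ) ^ (1 / 10 : ℝ)) atTop atTop :=
    (tendsto_rpow_atTop (by norm_num)).comp tendsto_natCast_atTop_atTop
  filter_upwards [ht.eventually_ge_atTop (2 * (2 * A + 1)), eventually_ge_atTop 1,
    tendsto_natCast_atTop_atTop.eventually_ge_atTop A] with N hN hN1 hNA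
  have hNr : (1 : ℝ) ≤ N := by exact_mod_cast hN1
  have hN0 : (0 : ℝ) < N := by linarith
  set S : ℝ := (N : ℝ) ^ (1 / 10 : ℝ) with hS
  have hS0 : 0 ≤ S := by positivity
  let T : Finset ℕ := (Icc 1 ⌊S⌋₊).biUnion (fun s =>
    (Icc 1 (Nat.sqrt (2 * N))).biUnion (fun t => Icc (s * t ^ 2 - ⌊A⌋₊) (s * t ^ 2 + ⌊A⌋₊)))
  have hsub : E6 A N ⊆ (T : Set ℕ) := by
    rintro M ⟨hM1, hMN, n, s, t, hn1, hMn, hnM, hst, hs⟩
    have hn2 : n ≤ 2 * N := by
      have : (n : ℝ) ≤ 2 * N := by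
        have : (M : ℝ) ≤ N := by exact_mod_cast hMN
        linarith
      have : (n : ℝ) ≤ ((2 * N : ℕ) : ℝ) := by push_cast; exact this
      exact_mod_cast this
    have hs1 : 1 ≤ s := by
      rcases Nat.eq_zero_or_pos s with h | h
      · subst h; simp at hst; omega
      · exact h
    have ht1 : 1 ≤ t := by
      rcases Nat.eq_zero_or_pos t with h | h
      · subst h; simp at hst; omega
      · exact h
    simp only [T, Finset.coe_biUnion, Set.mem_iUnion, Finset.coe_Icc, Set.mem_Icc]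
    refine ⟨s, ⟨hs1, Nat.le_floor hs⟩, t, ⟨ht1, ?_⟩, ?_, ?_⟩
    · rw [Nat.le_sqrt']
      nlinarith
    · rw [← hst]
      have h1 : ((n - M : ℕ) : ℝ) ≤ A := by
        rcases le_total M n with h | h
        · rw [Nat.cast_sub h]; linarith
        · rw [Nat.sub_eq_zero_of_le h]; simp; linarith
      have := Nat.le_floor h1
      omega
    · rw [← hst]
      have h1 : ((M - n : ℕ) : ℝ) ≤ A := by
        rcases le_total n M with h | h
        · rw [Nat.cast_sub h]; linarith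
        · rw [Nat.sub_eq_zero_of_le h]; simp; linarith
      have := Nat.le_floor h1
      omega
  have h1 : (E6 A N).ncard ≤ T.card := by
    rw [← Set.ncard_coe_finset]
    exact Set.ncard_le_ncard hsub (Finset.finite_toSet T)
  have h2 : T.card ≤ ⌊S⌋₊ * (Nat.sqrt (2 * N) * (2 * ⌊A⌋₊ + 1)) := by
    refine Finset.card_biUnion_le.trans ?_
    refine (Finset.sum_le_sum (fun s _ => (Finset.card_biUnion_le.trans
      (Finset.sum_le_sum (fun t _ => card_near _ _))))).trans ?_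
    simp
  have h3 : ((E6 A N).ncard : ℝ) ≤ ⌊S⌋₊ * (Nat.sqrt (2 * N) * (2 * ⌊A⌋₊ + 1)) := by
    exact_mod_cast h1.trans h2
  have h4 : ((Nat.sqrt (2 * N) : ℕ) : ℝ) ≤ 2 * (N : ℝ) ^ (1 / 2 : ℝ) := by
    rw [← Real.sqrt_eq_rpow]
    have : ((Nat.sqrt (2 * N) : ℕ) : ℝ) ≤ Real.sqrt ((2 * N : ℕ) : ℝ) := Real.nat_sqrt_le_real_sqrt
    refine this.trans ?_
    push_cast
    rw [Real.sqrt_mul (by norm_num)]
    have : Real.sqrt 2 ≤ 2 := by
      rw [Real.sqrt_le_left (by norm_num)]; norm_num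
    exact mul_le_mul_of_nonneg_right this (Real.sqrt_nonneg _)
  have h5 : ((⌊S⌋₊ : ℕ) : ℝ) ≤ S := Nat.floor_le hS0
  have h6 : ((⌊A⌋₊ : ℕ) : ℝ) ≤ A := Nat.floor_le hA.le
  have h7 : ((E6 A N).ncard : ℝ) ≤ S * ((2 * (N : ℝ) ^ (1 / 2 : ℝ)) * (2 * A + 1)) := by
    refine h3.trans ?_
    gcongr
  have h8 : (N : ℝ) ^ (7 / 10 : ℝ) = S * (N : ℝ) ^ (1 / 2 : ℝ) * S := by
    rw [hS, ← Real.rpow_add hN0, ← Real.rpow_add hN0]; congr 1; norm_num
  rw [h8]
  refine h7.trans ?_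
  have : (0 : ℝ) ≤ S * (N : ℝ) ^ (1 / 2 : ℝ) := by positivity
  nlinarith

end Pool.Agent.H632R3.D6
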